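import Mathlib

set_option autoImplicit false

namespace Pool.Agent.Results.MP_842c30_nt.AllComposite

lemma fac (r : ℕ) : ∃ y : ℕ, 1000 ^ r * 1020 = y + 201 ∧
    999999 * (10 * (104040 * ∑ i ∈ Finset.range r, 10 ^ (6 * i)) + 1) = y * (y + 402) := by
  have h1 : 1 ≤ 1000 ^ r := Nat.one_le_pow _ _ (by norm_num)
  refine ⟨1000 ^ r * 1020 - 201, by omega, ?_⟩
  have h2 : 999999 * ∑ i ∈ Finset.range r, 10 ^ (6 * i) + 1 = 1000 ^ r * 1000 ^ r := by
    induction r with
    | zero => simp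
    | succ r ih =>
      have := ih (Nat.one_le_pow _ _ (by norm_num))
      have e : 10 ^ (6 * r) = 1000 ^ r * 1000 ^ r := by
        rw [pow_mul, ← mul_pow]; norm_num
      rw [Finset.sum_range_succ, e, pow_succ]
      nlinarith
  obtain ⟨y, hy⟩ : ∃ y, 1000 ^ r * 1020 = y + 201 := ⟨1000 ^ r * 1020 - 201, by omega⟩
  rw [hy, Nat.add_sub_cancel]
  nlinarith

theorem result : ∃ n : ℕ, 0 < n ∧ (∀ m : ℕ, n ≠ 10 ^ m) ∧ ∀ r : ℕ, 1 ≤ r →
    ¬ Nat.Prime (10 * (n * ∑ i ∈ Finset.range r, 10 ^ ((Nat.digits 10 n).length * i)) + 1) := by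
  refine ⟨104040, by norm_num, fun m h => ?_, fun r hr hp => ?_⟩
  · have h3 : 3 ∣ 10 ^ m := h ▸ by norm_num
    exact absurd (Nat.prime_three.dvd_of_dvd_pow h3) (by norm_num)
  · have hd : (Nat.digits 10 104040).length = 6 := by norm_num
    rw [hd] at hp
    obtain ⟨y, h1, h2⟩ := fac r
    have h3 : 1000 ^ 1 ≤ 1000 ^ r := Nat.pow_le_pow_right (by norm_num) hr
    have hy : 999999 + 402 < y := by omega
    generalize 10 * (104040 * ∑ i ∈ Finset.range r, 10 ^ (6 * i)) + 1 = p at hp h2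
    rcases (Nat.Prime.dvd_mul hp).mp ⟨999999, by rw [← h2, mul_comm]⟩ with ⟨k, hk⟩ | ⟨k, hk⟩
    · have : 999999 = k * (y + 402) :=
        Nat.eq_of_mul_eq_mul_left hp.pos (by rw [← mul_assoc, ← hk, ← h2, mul_comm])
      have := Nat.le_of_dvd (by norm_num) (Dvd.intro_left k this.symm)
      omega
    · have : 999999 = k * y :=
        Nat.eq_of_mul_eq_mul_left hp.pos (by rw [← mul_assoc, ← hk, mul_comm p, h2, mul_comm])
      have := Nat.le_of_dvd (by norm_num) (Dvd.intro_left k this.symm)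
      omega

end Pool.Agent.Results.MP_842c30_nt.AllComposite
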